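import Mathlib
import Pool.Agent.V11309.Elated

/-!
# The number of cycles of the base-`b` elated function is unbounded

`E b a` is the leading base-`b` digit of `a` times the sum of the squares of its base-`b` digits,
`C b` is the number of cycles of `E b`.

Idea: the number `4 b^2 + y b + w` (with three digits `4, y, w`) is a fixed point if and only if
`U = 8 y - b`, `V = 8 w - 1` satisfy `U ^ 2 + V ^ 2 = 65 b ^ 2 - 1023`.  There is a quadratic
polynomial `b(k)` and a Gaussian integer `z_0(k) = U + i V` of this norm with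
`2 (4 - 7 i) z_0(k) = (18 + 520 k + i)^2 + 66495`, and `k` can be chosen such that `z_0(k)` is divisible by a high power
`π ^ m` of a Gaussian integer `π` of very small argument with `π ≡ conj π` modulo `8`.  Then the
numbers `z_0 (conj π / π) ^ j`, `j ≤ m`, give `m + 1` fixed points in the base `b(k)`.
-/

set_option autoImplicit false

namespace Pool.Agent.Results.MP_096971_nt.CyclesUnbounded

open Pool.Agent.V11309.Elated Zsqrtd

/-- The base-`b` elated function: the leading base-`b` digit of `a` times the sum of the squares of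
all base-`b` digits of `a` (`Nat.digits b a` is the list of digits, the last entry is the leading
digit). -/
def E (b a : ℕ) : ℕ :=
  (Nat.digits b a).getLastD 0 * ((Nat.digits b a).map (fun d => d ^ 2)).sum

/-- A cycle: a set `{x_0, …, x_{k-1}}` of `k ≥ 1` distinct positive integers with
`E b (x_j) = x_{j+1}` for `j + 1 < k` and `E b (x_{k-1}) = x_0`. -/
def IsCycle (b : ℕ) (s : Finset ℕ) : Prop :=
  ∃ (k : ℕ) (x : ℕ → ℕ), 1 ≤ k ∧ (∀ i < k, ∀ j < k, x i = x j → i = j) ∧ (∀ j < k, 0 < x j) ∧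
    (∀ j, j + 1 < k → E b (x j) = x (j + 1)) ∧ E b (x (k - 1)) = x 0 ∧
    s = (Finset.range k).image x

/-- The number `C b` of different cycles of `E b`. -/
noncomputable def C (b : ℕ) : ℕ∞ := Set.encard {s : Finset ℕ | IsCycle b s}

/-- three digits -/
lemma E_three (b y w : ℕ) (hb : 4 < b) (hy : y < b) (hw : w < b)
    (h : 4 * (w ^ 2 + y ^ 2 + 16) = 4 * b ^ 2 + y * b + w) :
    E b (4 * b ^ 2 + y * b + w) = 4 * b ^ 2 + y * b + w := by
  have hd : Nat.digits b (4 * b ^ 2 + y * b + w) = [w, y, 4] := by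
    have h1 : 4 * b ^ 2 + y * b + w = Nat.ofDigits b [w, y, 4] := by
      simp [Nat.ofDigits_cons]; ring
    rw [h1]
    apply Nat.digits_ofDigits b (by omega)
    · intro l hl
      simp only [List.mem_cons, List.not_mem_nil, or_false] at hl
      rcases hl with rfl | rfl | rfl <;> omega
    · intro _; simp
  rw [E, hd]
  simp only [List.getLastD_cons, List.map_cons, List.map_nil, List.sum_cons,
    List.sum_nil, List.getLastD_nil]
  rw [← h]
  ring

/-- the Gaussian integers `z_j` -/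
noncomputable def zz (α : GI) (n m j : ℕ) : GI := α * (star (pp n) ^ j * pp n ^ (m - j))

lemma norm_star (z : GI) : (star z).norm = z.norm := Zsqrtd.norm_conj z

lemma norm_zz (α : GI) (n m j : ℕ) (hj : j ≤ m) : (zz α n m j).norm = (α * pp n ^ m).norm := by
  obtain ⟨i, rfl⟩ := Nat.exists_eq_add_of_le hj
  have hp : ∀ (z : GI) (k : ℕ), (z ^ k).norm = z.norm ^ k := fun z k =>
    map_pow (Zsqrtd.normMonoidHom (d := -1)) z k
  rw [zz]
  simp only [Zsqrtd.norm_mul, hp, norm_star, Nat.add_sub_cancel_left]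
  rw [pow_add]

lemma dvd_zz (α : GI) (n m j : ℕ) (hj : j ≤ m) : (8 : GI) ∣ zz α n m j - α * pp n ^ m := by
  obtain ⟨i, rfl⟩ := Nat.exists_eq_add_of_le hj
  have h1 : (star (pp n) - pp n) ∣ star (pp n) ^ j - pp n ^ j := sub_dvd_pow_sub_pow _ _ j
  have h2 : (8 : GI) ∣ star (pp n) - pp n := by
    rw [star_pp]
    exact ⟨2 * D * 2 ^ n * (-I), by ring⟩
  have h3 : zz α n (j + i) j - α * pp n ^ (j + i) =
      α * pp n ^ i * (star (pp n) ^ j - pp n ^ j) := by
    rw [zz, Nat.add_sub_cancel_left]; ring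
  rw [h3]
  exact (h2.trans h1).mul_left _

lemma pp_re (n : ℕ) : (pp n).re = 4 * (66495 * 2 ^ n) ^ 2 - 66499 := by
  simp [pp, tau, D, pow_two]
  ring

lemma pp_im (n : ℕ) : (pp n).im = 8 * (66495 * 2 ^ n) := by
  simp [pp, tau, D, pow_two]
  ring

lemma two_pow_pos' (n : ℕ) : (1 : ℤ) ≤ 2 ^ n := by exact_mod_cast Nat.one_le_two_pow

lemma not_isUnit (n : ℕ) : ¬ IsUnit (pp n) := by
  intro h
  have h1 : (pp n).norm.natAbs = 1 := Zsqrtd.norm_eq_one_iff.2 h
  have h2 : (pp n).norm = (pp n).re ^ 2 + (pp n).im ^ 2 := by rw [Zsqrtd.norm_def]; ring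
  rw [h2, pp_re, pp_im] at h1
  have h3 := two_pow_pos' n
  have h4 : (1 : ℤ) < (4 * (66495 * 2 ^ n) ^ 2 - 66499) ^ 2 + (8 * (66495 * 2 ^ n)) ^ 2 := by
    nlinarith [sq_nonneg ((4 : ℤ) * (66495 * 2 ^ n) ^ 2 - 66499)]
  omega

lemma zz_inj (α : GI) (hα : α ≠ 0) (n m i j : ℕ) (hi : i ≤ m) (hj : j ≤ m)
    (h : zz α n m i = zz α n m j) : i = j := by
  by_contra hne
  wlog hij : i < j generalizing i j
  · exact this j i hj hi h.symm (Ne.symm hne) (by omega)
  obtain ⟨d, rfl⟩ := Nat.exists_eq_add_of_lt hij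
  obtain ⟨e, rfl⟩ := Nat.exists_eq_add_of_le hj
  have h0 : pp n ≠ 0 := by
    intro h0
    have := (copstar n)
    rw [h0] at this
    obtain ⟨x, y, hxy⟩ := this
    simp at hxy
  have hs0 : star (pp n) ≠ 0 := by
    intro h1
    apply h0
    have := congrArg star h1
    simpa using this
  rw [zz, zz] at h
  have h1 := mul_left_cancel₀ hα h
  have e1 : i + d + 1 + e - i = d + 1 + e := by omega
  have e2 : i + d + 1 + e - (i + d + 1) = e := by omega
  rw [e1, e2] at h1
  have h2 : pp n ^ (d + 1) = star (pp n) ^ (d + 1) := by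
    apply mul_right_cancel₀ (pow_ne_zero e h0)
    apply mul_left_cancel₀ (pow_ne_zero i hs0)
    calc star (pp n) ^ i * (pp n ^ (d + 1) * pp n ^ e) = star (pp n) ^ i * pp n ^ (d + 1 + e) := by
          ring
      _ = _ := by rw [h1]; ring
  have h3 : IsCoprime (pp n ^ (d + 1)) (star (pp n) ^ (d + 1)) := (copstar n).pow
  rw [← h2] at h3
  have h4 : IsUnit (pp n ^ (d + 1)) := isCoprime_self.1 h3
  exact not_isUnit n ((isUnit_pow_iff (by omega)).1 h4)

/-- the `z_j` are close to `z_0` -/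
lemma close (α : GI) (m j : ℕ) (hj : j ≤ m) :
    ‖(zz α m m j : ℂ) - ((α * pp m ^ m : GI) : ℂ)‖ ≤ ‖((α * pp m ^ m : GI) : ℂ)‖ / 100 := by
  set P : ℂ := ((pp m : GI) : ℂ) with hP
  have hPs : ((star (pp m) : GI) : ℂ) = (starRingEnd ℂ) P := by
    rw [hP]; exact GaussianInt.toComplex_star _
  have hnP : ‖(starRingEnd ℂ) P‖ = ‖P‖ := by simp
  set X : ℝ := 66495 * 2 ^ m with hX
  have hX1 : (66495 : ℝ) * (m + 1) ≤ X := by
    have h1 : ((m + 1 : ℕ) : ℝ) ≤ ((2 ^ m : ℕ) : ℝ) := by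
      exact_mod_cast Nat.lt_two_pow_self
    push_cast at h1
    rw [hX]; linarith
  have hm0 : (0 : ℝ) ≤ m := Nat.cast_nonneg m
  have hXpos : (66495 : ℝ) ≤ X := by linarith
  have hre : P.re = 4 * X ^ 2 - 66499 := by
    rw [hP, ← GaussianInt.intCast_re, pp_re, hX]; push_cast; ring
  have him : P.im = 8 * X := by
    rw [hP, ← GaussianInt.intCast_im, pp_im, hX]; push_cast; ring
  have hPlow : 3 * X ^ 2 ≤ ‖P‖ := by
    have h1 : |P.re| ≤ ‖P‖ := Complex.abs_re_le_norm P
    have h2 : 3 * X ^ 2 ≤ P.re := by rw [hre]; nlinarith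
    exact h2.trans ((le_abs_self _).trans h1)
  have hdiff : ‖(starRingEnd ℂ) P - P‖ = 16 * X := by
    have : (starRingEnd ℂ) P - P = ((-(2 * P.im) : ℝ) : ℂ) * Complex.I := by
      apply Complex.ext
      · simp
      · simp; ring
    rw [this, _root_.norm_mul, Complex.norm_I, mul_one, Complex.norm_real, him]
    rw [Real.norm_eq_abs, abs_neg, abs_of_pos (by positivity)]
    ring
  have hPpos : 0 < ‖P‖ := lt_of_lt_of_le (by positivity) hPlow
  have key : ∀ j ≤ m, ‖(zz α m m j : ℂ) - ((α * pp m ^ m : GI) : ℂ)‖ ≤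
      j * (‖((α * pp m ^ m : GI) : ℂ)‖ * (16 * X / ‖P‖)) := by
    intro j
    induction j with
    | zero => intro _; simp [zz]
    | succ j ih =>
      intro hj
      have h1 := ih (by omega)
      have e1 : ((zz α m m (j + 1) : GI) : ℂ) - ((zz α m m j : GI) : ℂ) =
          (α : ℂ) * ((starRingEnd ℂ) P ^ j * P ^ (m - (j + 1))) * ((starRingEnd ℂ) P - P) := by
        have e2 : m - j = m - (j + 1) + 1 := by omega
        rw [zz, zz, e2]
        simp only [map_mul, map_pow, hPs]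
        rw [← hP]
        ring
      have h2 : ‖((zz α m m (j + 1) : GI) : ℂ) - ((zz α m m j : GI) : ℂ)‖ =
          ‖((α * pp m ^ m : GI) : ℂ)‖ * (16 * X / ‖P‖) := by
        rw [e1]
        simp only [map_mul, map_pow, _root_.norm_mul, norm_pow, hnP, hdiff]
        rw [← hP]
        have e3 : ‖P‖ ^ m = ‖P‖ ^ j * ‖P‖ ^ (m - (j + 1)) * ‖P‖ := by
          rw [← pow_add, ← pow_succ]; congr 1; omega
        rw [e3]
        field_simp
      calc ‖((zz α m m (j + 1) : GI) : ℂ) - ((α * pp m ^ m : GI) : ℂ)‖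
          = ‖(((zz α m m (j + 1) : GI) : ℂ) - ((zz α m m j : GI) : ℂ)) +
              (((zz α m m j : GI) : ℂ) - ((α * pp m ^ m : GI) : ℂ))‖ := by ring_nf
        _ ≤ ‖((zz α m m (j + 1) : GI) : ℂ) - ((zz α m m j : GI) : ℂ)‖ +
              ‖((zz α m m j : GI) : ℂ) - ((α * pp m ^ m : GI) : ℂ)‖ := norm_add_le _ _
        _ ≤ _ := by rw [h2]; push_cast; linarith
  refine (key j hj).trans ?_
  have hjm : (j : ℝ) ≤ m := by exact_mod_cast hj
  have h5 : 16 * X / ‖P‖ ≤ 16 / (3 * X) := by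
    rw [div_le_div_iff₀ hPpos (by positivity)]
    nlinarith
  have h6 : (j : ℝ) * (16 * X / ‖P‖) ≤ 1 / 100 := by
    calc (j : ℝ) * (16 * X / ‖P‖) ≤ m * (16 / (3 * X)) := by
          apply mul_le_mul hjm h5 (by positivity) hm0
      _ ≤ 1 / 100 := by
          rw [mul_div_assoc', div_le_div_iff₀ (by positivity) (by norm_num)]
          nlinarith
  have h7 : (0 : ℝ) ≤ ‖((α * pp m ^ m : GI) : ℂ)‖ := norm_nonneg _
  calc (j : ℝ) * (‖((α * pp m ^ m : GI) : ℂ)‖ * (16 * X / ‖P‖))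
      = ‖((α * pp m ^ m : GI) : ℂ)‖ * (j * (16 * X / ‖P‖)) := by ring
    _ ≤ ‖((α * pp m ^ m : GI) : ℂ)‖ * (1 / 100) := by gcongr
    _ = _ := by ring

/-- fixed points from Gaussian integers of norm `65 b^2 - 1023` -/
lemma digits_of (k : ℤ) (hk : 1 ≤ k) (z : GI) (hn : z.norm = (z0 k).norm)
    (h8 : (8 : GI) ∣ z - z0 k) (hc : ‖(z : ℂ) - (z0 k : ℂ)‖ ≤ ‖(z0 k : ℂ)‖ / 100) :
    ∃ y w : ℕ, (8 * y : ℤ) = z.re + bb k ∧ (8 * w : ℤ) = z.im + 1 ∧
      y < (bb k).toNat ∧ w < (bb k).toNat ∧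
      4 * (w ^ 2 + y ^ 2 + 16) = 4 * (bb k).toNat ^ 2 + y * (bb k).toNat + w := by
  have hb : 0 < bb k := by rw [bb]; positivity
  have hnorm0 : (z0 k).norm = 65 * bb k ^ 2 - 1023 := by
    rw [Zsqrtd.norm_def]; simp only [z0, bb]; ring
  have hnormz : z.norm = z.re ^ 2 + z.im ^ 2 := by rw [Zsqrtd.norm_def]; ring
  have hsq : ‖(z0 k : ℂ)‖ ^ 2 = ((65 * bb k ^ 2 - 1023 : ℤ) : ℝ) := by
    rw [← hnorm0, ← Complex.normSq_eq_norm_sq]
    exact (GaussianInt.intCast_real_norm _).symm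
  have hbR : (0 : ℝ) < (bb k : ℝ) := by exact_mod_cast hb
  have hle : ‖(z0 k : ℂ)‖ ≤ 9 * (bb k : ℝ) := by
    have h1 : ‖(z0 k : ℂ)‖ ^ 2 ≤ (9 * (bb k : ℝ)) ^ 2 := by
      rw [hsq]; push_cast; nlinarith
    exact le_of_sq_le_sq h1 (by positivity)
  have hcl : ‖(z : ℂ) - (z0 k : ℂ)‖ ≤ 9 * (bb k : ℝ) / 100 := hc.trans (by linarith)
  have hre : |(z.re : ℝ) - (z0 k).re| ≤ 9 * (bb k : ℝ) / 100 := by
    have := (Complex.abs_re_le_norm ((z : ℂ) - (z0 k : ℂ))).trans hcl
    simpa using this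
  have him : |(z.im : ℝ) - (z0 k).im| ≤ 9 * (bb k : ℝ) / 100 := by
    have := (Complex.abs_im_le_norm ((z : ℂ) - (z0 k : ℂ))).trans hcl
    simpa using this
  have hre' : 100 * |z.re - (z0 k).re| ≤ 9 * bb k := by
    have : (100 : ℝ) * |(z.re : ℝ) - (z0 k).re| ≤ 9 * (bb k : ℝ) := by linarith
    exact_mod_cast this
  have him' : 100 * |z.im - (z0 k).im| ≤ 9 * bb k := by
    have : (100 : ℝ) * |(z.im : ℝ) - (z0 k).im| ≤ 9 * (bb k : ℝ) := by linarith
    exact_mod_cast this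
  have h8' : ((8 : ℤ) : GI) ∣ z - z0 k := by push_cast; exact h8
  rw [Zsqrtd.intCast_dvd] at h8'
  obtain ⟨⟨c, hc1⟩, ⟨d, hd1⟩⟩ := h8'
  simp only [Zsqrtd.re_sub, Zsqrtd.im_sub] at hc1 hd1
  have hz0re : (z0 k).re = 4 * bb k - 2 - 56 * k := rfl
  have hz0im : (z0 k).im = 7 * bb k + 1 + 32 * k := rfl
  rw [hz0re] at hre' hc1
  rw [hz0im] at him' hd1
  have hA := abs_le.1 (show |z.re - (4 * bb k - 2 - 56 * k)| ≤ |z.re - (4 * bb k - 2 - 56 * k)| from le_rfl)
  have hB := abs_le.1 (show |z.im - (7 * bb k + 1 + 32 * k)| ≤ |z.im - (7 * bb k + 1 + 32 * k)| from le_rfl)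
  have hbk : 2080 * k ^ 2 + 144 * k + 514 = bb k := rfl
  have hkk : k ≤ k ^ 2 := by nlinarith
  -- the digits
  set Y : ℤ := c + 1300 * k ^ 2 + 90 * k + 321 - 7 * k with hY
  set W : ℤ := d + 1820 * k ^ 2 + 126 * k + 450 + 4 * k with hW
  have hY8 : 8 * Y = z.re + bb k := by rw [hY, ← hbk]; rw [← hbk] at hc1; linarith
  have hW8 : 8 * W = z.im + 1 := by rw [hW]; rw [← hbk] at hd1; linarith
  have hY0 : 0 ≤ Y := by linarith
  have hW0 : 0 ≤ W := by linarith
  have hYb : Y < bb k := by linarith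
  have hWb : W < bb k := by linarith
  refine ⟨Y.toNat, W.toNat, ?_, ?_, ?_, ?_, ?_⟩
  · rw [Int.toNat_of_nonneg hY0]; exact hY8
  · rw [Int.toNat_of_nonneg hW0]; exact hW8
  · omega
  · omega
  · have h1 : (4 : ℤ) * (W ^ 2 + Y ^ 2 + 16) = 4 * (bb k) ^ 2 + Y * bb k + W := by
      rw [hnormz, hnorm0] at hn
      have e1 : z.re = 8 * Y - bb k := by linarith
      have e2 : z.im = 8 * W - 1 := by linarith
      rw [e1, e2] at hn
      nlinarith
    zify
    rw [Int.toNat_of_nonneg hY0, Int.toNat_of_nonneg hW0, Int.toNat_of_nonneg hb.le]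
    exact h1

/-- **The number of cycles of the base-`b` elated function is unbounded**: for every `M` there is a
base `b ≥ 2` with more than `M` cycles. -/
theorem result : ∀ M : ℕ, ∃ b : ℕ, 2 ≤ b ∧ (M : ℕ∞) < C b := by
  intro M
  set m := M + 1 with hm
  obtain ⟨k, hk1, hk⟩ := exists_k m M 1
  rw [← hm] at hk
  obtain ⟨α, hα⟩ := hk
  have hα' : α * pp m ^ m = z0 k := by rw [hα]; ring
  have hα0 : α ≠ 0 := by
    intro h0
    rw [h0, zero_mul] at hα'
    have : (z0 k).im = 0 := by rw [← hα']; rfl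
    have h2 : (z0 k).im = 7 * bb k + 1 + 32 * k := rfl
    rw [h2, bb] at this
    nlinarith
  have hex : ∀ j ≤ m, ∃ y w : ℕ, (8 * y : ℤ) = (zz α m m j).re + bb k ∧
      (8 * w : ℤ) = (zz α m m j).im + 1 ∧ y < (bb k).toNat ∧ w < (bb k).toNat ∧
      4 * (w ^ 2 + y ^ 2 + 16) = 4 * (bb k).toNat ^ 2 + y * (bb k).toNat + w := by
    intro j hj
    apply digits_of k hk1
    · rw [norm_zz α m m j hj, hα']
    · rw [← hα']; exact dvd_zz α m m j hj
    · rw [← hα']; exact close α m j hj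
  choose! y w h1 h2 h3 h4 h5 using hex
  set b := (bb k).toNat with hb
  have hb4 : 4 < b := by
    have : 514 ≤ bb k := by rw [bb]; nlinarith
    omega
  refine ⟨b, by omega, ?_⟩
  set a : ℕ → ℕ := fun j => 4 * b ^ 2 + y j * b + w j with ha
  have hainj : Set.InjOn a (Finset.range m : Set ℕ) := by
    intro i hi j hj hij
    simp only [Finset.coe_range, Set.mem_Iio] at hi hj
    have hij' : y i * b + w i = y j * b + w j := by
      simp only [ha] at hij; omega
    have hwi := h4 i hi.le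
    have hwj := h4 j hj.le
    have hy : y i = y j := by
      have e1 : (y i * b + w i) / b = y i := by
        rw [Nat.mul_comm, Nat.mul_add_div (by omega), Nat.div_eq_of_lt hwi, Nat.add_zero]
      have e2 : (y j * b + w j) / b = y j := by
        rw [Nat.mul_comm, Nat.mul_add_div (by omega), Nat.div_eq_of_lt hwj, Nat.add_zero]
      rw [← e1, ← e2, hij']
    have hw : w i = w j := by rw [hy] at hij'; omega
    apply zz_inj α hα0 m m i j hi.le hj.le
    rw [Zsqrtd.ext_iff]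
    constructor
    · have := h1 i hi.le; have := h1 j hj.le; rw [hy] at *; linarith
    · have := h2 i hi.le; have := h2 j hj.le; rw [hw] at *; linarith
  set F : Finset (Finset ℕ) := (Finset.range m).image (fun j => {a j}) with hF
  have hFcard : F.card = m := by
    rw [hF, Finset.card_image_of_injOn, Finset.card_range]
    intro i hi j hj hij
    exact hainj hi hj (Finset.singleton_injective hij)
  have hsub : (F : Set (Finset ℕ)) ⊆ {s : Finset ℕ | IsCycle b s} := by
    intro s hs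
    rw [Finset.mem_coe, hF, Finset.mem_image] at hs
    obtain ⟨j, hj, rfl⟩ := hs
    rw [Finset.mem_range] at hj
    refine ⟨1, fun _ => a j, le_rfl, ?_, ?_, ?_, ?_, ?_⟩
    · intro i hi l hl _; omega
    · intro i _; simp only [ha]; positivity
    · intro i hi; omega
    · exact E_three b (y j) (w j) hb4 (h3 j hj.le) (h4 j hj.le) (h5 j hj.le)
    · simp
  have hle : (m : ℕ∞) ≤ C b := by
    rw [C, ← hFcard, ← Set.encard_coe_eq_coe_finsetCard]
    exact Set.encard_le_encard hsub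
  refine lt_of_lt_of_le ?_ hle
  exact_mod_cast (by omega : M < m)

end Pool.Agent.Results.MP_096971_nt.CyclesUnbounded
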